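import Pool.Agent.Q182.AmAnosov

set_option autoImplicit false

open scoped Manifold ContDiff Topology
open Set Filter MeasureTheory

universe u

namespace Pool.Agent.Results.MP_610fe3_an.AmenableRecurrence

open Pool.Agent.H721R2 Pool.Agent.H789R2.AN

/-- A bounded real function. -/
def Bdd {Γ : Type*} (φ : Γ → ℝ) : Prop := ∃ C : ℝ, ∀ γ, |φ γ| ≤ C

/-- `m` is a left invariant mean on the bounded real functions on the semigroup `Γ`: normalised,
linear, nonnegative on nonnegative functions and invariant under left translations. The semigroup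
is (left) amenable if there is one. (The values of `m` on unbounded functions play no role.) -/
structure LeftInvariantMean {Γ : Type*} [Mul Γ] (m : (Γ → ℝ) → ℝ) : Prop where
  one : m (fun _ => 1) = 1
  add : ∀ φ ψ : Γ → ℝ, Bdd φ → Bdd ψ → m (fun γ => φ γ + ψ γ) = m φ + m ψ
  smul : ∀ (c : ℝ) (φ : Γ → ℝ), Bdd φ → m (fun γ => c * φ γ) = c * m φ
  nonneg : ∀ φ : Γ → ℝ, Bdd φ → (∀ γ, 0 ≤ φ γ) → 0 ≤ m φ
  inv : ∀ (δ : Γ) (φ : Γ → ℝ), Bdd φ → m (fun γ => φ (δ * γ)) = m φ

open scoped Classical in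
/-- Some orbit of the semigroup visits `U` with positive upper Banach density: for some point `x`
and some left invariant mean `m` the set of the `γ` with `γ x ∈ U` has positive mean. -/
def Visited {Γ M : Type*} [Mul Γ] (α : Γ → M → M) (U : Set M) : Prop :=
  ∃ (x : M) (m : (Γ → ℝ) → ℝ), LeftInvariantMean m ∧ 0 < m (fun γ => if α γ x ∈ U then 1 else 0)

/-- `K` is a minimal set of the family `α` of maps: it is closed and invariant, and for each point
of `K` the set of its images is dense in `K`. -/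
def IsMinimalSet {Γ M : Type*} [TopologicalSpace M] (α : Γ → M → M) (K : Set M) : Prop :=
  IsClosed K ∧ (∀ γ, MapsTo (α γ) K K) ∧
    ∀ x ∈ K, ∀ U : Set M, IsOpen U → (K ∩ U).Nonempty → ∃ γ, α γ x ∈ U

theorem mean_iff {Γ : Type*} [Mul Γ] {m : (Γ → ℝ) → ℝ} (h : LeftInvariantMean m) :
    Q182.AmMean.LeftInvariantMean m := ⟨h.one, h.add, h.smul, h.nonneg, h.inv⟩

/-- **Recurrence of an amenable semigroup makes its Anosov elements transitive.**
Let `f` be a `C¹` Anosov diffeomorphism of a closed connected manifold `M`.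

(1) Let an amenable semigroup `Γ` (for instance an amenable group, or a commutative semigroup) act
on `M` by continuous maps, one of which is `f`. If every nonempty open set is visited with positive
upper Banach density by some `Γ`-orbit, then `f` is topologically transitive.

(2) In particular `f` is topologically transitive if the union of the minimal sets of `Γ` is dense
in `M`. (Examples: `Γ` acts minimally; `f` commutes with a continuous map which has dense periodic
points, finitely many of each period, such as an expanding map or a transitive Anosov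
diffeomorphism.)

(3) Let `f` normalise a family `α` of continuous maps (`α γ ∘ f = f ∘ α δ` with `δ` depending on
`γ`), and let the family act minimally: the images of each point are dense. If the family has an
invariant Borel probability measure, or if it is an action of an amenable semigroup, then `f` is
topologically transitive. -/
theorem result (E : Type*) [NormedAddCommGroup E] [NormedSpace ℝ E] [FiniteDimensional ℝ E]
    (M : Type*) [TopologicalSpace M] [T2Space M] [CompactSpace M] [ConnectedSpace M]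
    [ChartedSpace E M] [IsManifold 𝓘(ℝ, E) ∞ M] (f : Diffeomorph 𝓘(ℝ, E) 𝓘(ℝ, E) M M 1)
    (Es Eu : ∀ x : M, Submodule ℝ (TangentSpace 𝓘(ℝ, E) x)) (hf : IsAnosov f Es Eu) :
    (∀ (Γ : Type u) [Semigroup Γ] (α : Γ → M → M), (∀ γ, Continuous (α γ)) →
      (∀ γ δ x, α (γ * δ) x = α γ (α δ x)) → (∃ γ, ∀ x, α γ x = f x) →
      (∀ U : Set M, IsOpen U → U.Nonempty → Visited α U) → TopTransitive f) ∧
    (∀ (Γ : Type u) [Semigroup Γ] (α : Γ → M → M), (∀ γ, Continuous (α γ)) →
      (∀ γ δ x, α (γ * δ) x = α γ (α δ x)) → (∃ γ, ∀ x, α γ x = f x) →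
      (∃ m : (Γ → ℝ) → ℝ, LeftInvariantMean m) →
      Dense (⋃₀ {K : Set M | IsMinimalSet α K}) → TopTransitive f) ∧
    (∀ (Γ : Type u) [Semigroup Γ] (α : Γ → M → M), (∀ γ, Continuous (α γ)) →
      (∀ γ, ∃ δ, ∀ x, α γ (f x) = f (α δ x)) →
      (∀ x, Dense (Set.range fun γ => α γ x)) →
      ((∃ (_ : MeasurableSpace M) (_ : BorelSpace M) (μ : Measure M),
          IsProbabilityMeasure μ ∧ ∀ γ, μ.map (α γ) = μ) ∨
        ((∀ γ δ x, α (γ * δ) x = α γ (α δ x)) ∧ ∃ m : (Γ → ℝ) → ℝ, LeftInvariantMean m)) →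
      TopTransitive f) := by
  classical
  have bump : ∀ U : Set M, IsOpen U → U.Nonempty → ∃ (V : Set M) (φ : C(M, ℝ)), IsOpen V ∧
      V.Nonempty ∧ V ⊆ U ∧ (∀ x, 0 ≤ φ x) ∧ (∀ x, φ x ≤ 1) ∧ (∀ x, x ∉ U → φ x = 0) ∧
      ∀ x ∈ V, φ x = 1 := by
    intro U hU hne
    obtain ⟨x, hx⟩ := hne
    obtain ⟨V, hV, hxV, hcl⟩ : ∃ V : Set M, IsOpen V ∧ x ∈ V ∧ closure V ⊆ U := by
      obtain ⟨t, ht, htc, htU⟩ := exists_mem_nhds_isClosed_subset (hU.mem_nhds hx)
      exact ⟨interior t, isOpen_interior, mem_interior_iff_mem_nhds.2 ht,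
        (closure_minimal interior_subset htc).trans htU⟩
    obtain ⟨φ, h0, h1, h01⟩ := exists_continuous_zero_one_of_isClosed (X := M)
      hU.isClosed_compl isClosed_closure (by
        rw [Set.disjoint_left]
        exact fun y hy hy' => hy (hcl hy'))
    exact ⟨V, φ, hV, ⟨x, hxV⟩, subset_closure.trans hcl, fun y => (h01 y).1, fun y => (h01 y).2,
      fun y hy => h0 hy, fun y hy => h1 (subset_closure hy)⟩
  have part1 : ∀ (Γ : Type u) [Semigroup Γ] (α : Γ → M → M), (∀ γ, Continuous (α γ)) →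
      (∀ γ δ x, α (γ * δ) x = α γ (α δ x)) → (∃ γ, ∀ x, α γ x = f x) →
      (∀ U : Set M, IsOpen U → U.Nonempty → Visited α U) → TopTransitive f := by
    intro Γ _ α hc hα hfα hvis
    obtain ⟨γ₀, hγ₀⟩ := hfα
    refine Q182.AmAnosov.man_nw f Es Eu hf fun U hU hne => ?_
    obtain ⟨V, φ, hV, hVne, hVU, h0, h1, hφU, hφV⟩ := bump U hU hne
    obtain ⟨x, m, hm, hpos⟩ := hvis V hV hVne
    have hm' := mean_iff hm
    let β : Γ → C(M, M) := fun γ => ⟨α γ, hc γ⟩
    have hβ : ∀ γ δ x, β (γ * δ) x = β γ (β δ x) := hα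
    have hst := hm'.state (X := M) (fun γ => β γ x)
    have hfβ : (⟨f, f.continuous⟩ : C(M, M)) = β γ₀ := by
      ext y
      exact (hγ₀ y).symm
    refine Q182.AmMean.nonwandering hst (f := ⟨f, f.continuous⟩) ?_ h1 hφU ?_
    · intro ψ
      rw [hfβ]
      exact hm'.state_inv hβ x γ₀ ψ
    · refine hpos.trans_le (hm'.mono ⟨1, fun γ => ?_⟩ (Q182.AmMean.bdd_comp φ _) fun γ => ?_)
      · change |if α γ x ∈ V then (1 : ℝ) else 0| ≤ 1
        split_ifs <;> simp
      · split_ifs with hγ
        · exact (hφV _ hγ).ge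
        · exact h0 _
  refine ⟨part1, ?_, ?_⟩
  · intro Γ _ α hc hα hfα hm hd
    refine part1 Γ α hc hα hfα fun U hU hne => ?_
    obtain ⟨m, hm⟩ := hm
    obtain ⟨x, hxU, K, hK, hxK⟩ := hd.inter_open_nonempty U hU hne
    have hm' := mean_iff hm
    refine ⟨x, m, hm, ?_⟩
    obtain ⟨t, ht⟩ := hK.1.isCompact.elim_finite_subcover (fun γ : Γ => (α γ) ⁻¹' U)
      (fun γ => hU.preimage (hc γ)) (fun y hy => by
        obtain ⟨γ, hγ⟩ := hK.2.2 y hy U hU ⟨x, hxK, hxU⟩
        exact mem_iUnion.2 ⟨γ, hγ⟩)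
    set ψ : Γ → ℝ := fun γ => if α γ x ∈ U then 1 else 0 with hψ
    have hψb : Bdd ψ := ⟨1, fun γ => by simp only [hψ]; split_ifs <;> simp⟩
    have hψ0 : ∀ γ, 0 ≤ ψ γ := fun γ => by simp only [hψ]; split_ifs <;> simp
    have hsb : ∀ s : Finset Γ, Bdd (fun γ => ∑ δ ∈ s, ψ (δ * γ)) := by
      intro s
      refine ⟨s.card, fun γ => (Finset.abs_sum_le_sum_abs _ _).trans ?_⟩
      refine (Finset.sum_le_card_nsmul _ _ 1 fun δ _ => ?_).trans (by simp)
      rw [abs_of_nonneg (hψ0 _)]
      simp only [hψ]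
      split_ifs <;> simp
    have hsum : ∀ s : Finset Γ, m (fun γ => ∑ δ ∈ s, ψ (δ * γ)) = s.card * m ψ := by
      intro s
      induction s using Finset.induction_on with
      | empty =>
        have := hm.smul 0 ψ hψb
        simpa using this
      | insert a s ha ih =>
        have e1 : (fun γ => ∑ δ ∈ insert a s, ψ (δ * γ)) =
            fun γ => ψ (a * γ) + ∑ δ ∈ s, ψ (δ * γ) := by
          funext γ
          rw [Finset.sum_insert ha]
        rw [e1, hm.add _ _ ?_ (hsb s), hm.inv a ψ hψb, ih, Finset.card_insert_of_notMem ha]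
        · push_cast
          ring
        · obtain ⟨C, hC⟩ := hψb
          exact ⟨C, fun γ => hC _⟩
    have h1 : (1 : ℝ) ≤ t.card * m ψ := by
      rw [← hsum t, ← hm.one]
      refine hm'.mono ⟨1, fun _ => by simp⟩ (hsb t) fun γ => ?_
      obtain ⟨δ, hδ⟩ := mem_iUnion.1 (ht (hK.2.1 γ hxK))
      obtain ⟨hδt, hδx⟩ := mem_iUnion.1 hδ
      have h3 := Finset.single_le_sum (f := fun δ => ψ (δ * γ)) (fun δ _ => hψ0 (δ * γ)) hδt
      have h4 : ψ (δ * γ) = 1 := by
        simp only [hψ]
        rw [if_pos]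
        rw [hα]
        exact hδx
      simp only [h4] at h3
      exact h3
    by_contra hle
    push Not at hle
    have : (t.card : ℝ) * m ψ ≤ 0 := mul_nonpos_of_nonneg_of_nonpos (Nat.cast_nonneg _) hle
    linarith
  · intro Γ _ α hc hnorm hd hor
    let β : Γ → C(M, M) := fun γ => ⟨α γ, hc γ⟩
    obtain ⟨ν, hν, hνinv⟩ : ∃ ν : C(M, ℝ) → ℝ, Q182.AmMean.State ν ∧
        ∀ γ (φ : C(M, ℝ)), ν (φ.comp (β γ)) = ν φ := by
      rcases hor with ⟨_, _, μ, hμ, hinv⟩ | ⟨hα, m, hm⟩
      · have hint : ∀ φ : C(M, ℝ), Integrable φ μ := fun φ =>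
          φ.continuous.integrable_of_hasCompactSupport (HasCompactSupport.of_compactSpace φ)
        refine ⟨fun φ => ∫ x, φ x ∂μ, ⟨?_, ?_, ?_, ?_⟩, ?_⟩
        · simp
        · intro φ ψ
          exact integral_add (hint φ) (hint ψ)
        · intro c φ
          exact integral_const_mul c φ
        · intro φ hφ
          exact integral_nonneg hφ
        · intro γ φ
          change ∫ x, φ (α γ x) ∂μ = ∫ x, φ x ∂μ
          conv_rhs => rw [← hinv γ]
          rw [integral_map (hc γ).measurable.aemeasurable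
            φ.continuous.measurable.aestronglyMeasurable]
      · obtain ⟨x⟩ : Nonempty M := inferInstance
        have hm' := mean_iff hm
        refine ⟨fun φ => m fun γ => φ (β γ x), hm'.state (fun γ => β γ x), fun γ φ => ?_⟩
        exact hm'.state_inv (α := β) (fun γ δ x => hα γ δ x) x γ φ
    obtain ⟨μ, hμ, hμα, hμf⟩ := Q182.AmMean.exists_invariant hν ⟨f, f.continuous⟩ β hνinv hnorm
    refine Q182.AmAnosov.man_nw f Es Eu hf fun U hU hne => ?_
    obtain ⟨V, φ, hV, hVne, hVU, h0, h1, hφU, hφV⟩ := bump U hU hne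
    refine Q182.AmMean.nonwandering hμ (f := ⟨f, f.continuous⟩) hμf h1 hφU ?_
    refine Q182.AmMean.pos_of_cover hμ hμα hV (fun x => ?_) h0 hφV
    obtain ⟨y, hyV, γ, rfl⟩ := (hd x).inter_open_nonempty V hV hVne
    exact ⟨γ, hyV⟩

end Pool.Agent.Results.MP_610fe3_an.AmenableRecurrence
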