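import Pool.Agent.Q70.AnF

/-!
# Transitivity of Anosov diffeomorphisms and the growth of separated orbits in open sets

Let `f` be an Anosov diffeomorphism of a closed connected manifold `M` and let `s g U ε n` be the
largest number of points of `U` which are pairwise separated by `ε` within the times `0, ..., n`
under `g`.  We prove, for all sufficiently small `ε`, that each of the following conditions is
equivalent to the topological transitivity of `f`:

* every nonempty open set `U` has, for `f` and for `f⁻¹`, at least a constant proportion of the
  separated orbits of `M`;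
* every nonempty open set has at least the proportion `c n^{-a}` for `f`, `c n^{-b}` for `f⁻¹`, for
  some `a + b < 1`;
* every nonempty open set `U` satisfies `sup_n (∑_{k ≤ n} s(f⁻¹, U, k) s(f, U, n - k)) / s(f, M, n) = ∞`;
* every nonempty open set has full topological entropy for `f` and for `f⁻¹`, and
  `liminf s(f, M, n) / (n e^{hn}) = 0`, where `h` is the topological entropy of `f`;
* every nonempty open set has full topological entropy for `f` and for `f⁻¹`, and `f` has no two
  disjoint closed invariant sets of full entropy.

So a counterexample to the conjecture has an open set which loses entropy in the future or in the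
past, or it has two disjoint closed invariant sets of full entropy and its number of separated
orbits is at least `c n e^{hn}`.

Idea of the proof.  If `f` is not transitive then it has a wandering ball `U`.  By shadowing, the
past of any point of `U` can be combined with the future of any other point of `U`.  The orbits
which pass through `U` at different times are separated, as `U` is wandering, so that
`∑_{k ≤ n} s(f⁻¹, U, k) s(f, U, n - k) ≤ C s(f, M, n)`.  If an open set has full entropy then so has
the closure of its future, which is forward invariant; for a forward invariant set the number of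
separated orbits is submultiplicative, so that it is at least `e^{hn}`, and by shadowing and
compactness a constant proportion of these orbits can be started in the open set.  The limit sets
of the future and of the past of a wandering ball are disjoint and have full entropy if the ball
has.  Conversely, a transitive Anosov diffeomorphism of a connected manifold is mixing, so that
every orbit segment can be shadowed from every open set, and orbits which stay near one of two
disjoint invariant sets of full entropy up to the time `k` and near the other one afterwards would
give more than `C e^{hn}` separated orbits.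
-/

set_option autoImplicit false

open scoped Manifold ContDiff Topology
open Set Filter

namespace Pool.Agent.Results.MP_610fe3_an.GrowthOfOpenSets

open Pool.Agent.H721R2 Pool.Agent.H789R2.AN

/-- the points of `S` are pairwise separated by more than `ε` within the times `0, ..., n` -/
def Separated {M : Type*} [MetricSpace M] (g : M → M) (n : ℕ) (ε : ℝ) (S : Finset M) : Prop :=
  ∀ x ∈ S, ∀ y ∈ S, x ≠ y → ∃ k ≤ n, ε < dist (g^[k] x) (g^[k] y)

/-- the largest number of separated points in `U` -/
noncomputable def s {M : Type*} [MetricSpace M] (g : M → M) (U : Set M) (ε : ℝ) (n : ℕ) : ℕ :=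
  sSup {m | ∃ S : Finset M, (S : Set M) ⊆ U ∧ Separated g n ε S ∧ S.card = m}

/-- `U` has full topological entropy for `f` and for `f⁻¹` -/
def FullEntropy {M : Type*} [MetricSpace M] (f : M ≃ₜ M) (U : Set M) : Prop :=
  Dynamics.coverEntropy f U = Dynamics.coverEntropy f univ ∧
    Dynamics.coverEntropy f.symm U = Dynamics.coverEntropy f univ

universe u

/-- **Transitivity of Anosov diffeomorphisms by growth.**  Let `f` be a `C¹` Anosov diffeomorphism
of a closed connected manifold `M`.  For all sufficiently small `ε > 0` the following are
equivalent. -/
theorem result (E : Type*) [NormedAddCommGroup E] [NormedSpace ℝ E] [FiniteDimensional ℝ E]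
    (M : Type u) [MetricSpace M] [CompactSpace M] [ConnectedSpace M]
    [ChartedSpace E M] [IsManifold 𝓘(ℝ, E) ∞ M] (f : Diffeomorph 𝓘(ℝ, E) 𝓘(ℝ, E) M M 1)
    (Es Eu : ∀ x : M, Submodule ℝ (TangentSpace 𝓘(ℝ, E) x)) (hf : IsAnosov f Es Eu) :
    ∃ ε₀ : ℝ, 0 < ε₀ ∧ ∀ ε : ℝ, 0 < ε → ε < ε₀ → List.TFAE [
      -- (1) `f` is topologically transitive
      TopTransitive f,
      -- (2) the growth of every open set is comparable with that of `M`
      ∀ U : Set M, IsOpen U → U.Nonempty → ∃ c : ℝ, 0 < c ∧ ∀ n : ℕ,
        c * s f univ ε n ≤ s f U ε n ∧ c * s f univ ε n ≤ s f.symm U ε n,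
      -- (3) it is comparable up to powers `n^{-a}`, `n^{-b}` with `a + b < 1`
      ∀ U : Set M, IsOpen U → U.Nonempty → ∃ a b c : ℝ, 0 ≤ a ∧ 0 ≤ b ∧ a + b < 1 ∧ 0 < c ∧
        ∀ n : ℕ, c * ((n : ℝ) + 1) ^ (-a) * s f univ ε n ≤ s f U ε n ∧
          c * ((n : ℝ) + 1) ^ (-b) * s f univ ε n ≤ s f.symm U ε n,
      -- (4) convolutions are unbounded
      ∀ U : Set M, IsOpen U → U.Nonempty → ∀ B : ℝ, ∃ n : ℕ, B * s f univ ε n <
        ∑ k ∈ Finset.range (n + 1), (s f.symm U ε k : ℝ) * s f U ε (n - k),
      -- (5) full entropy, and few separated orbits
      (∀ U : Set M, IsOpen U → U.Nonempty → FullEntropy f.toHomeomorph U) ∧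
        ∀ η : ℝ, 0 < η → ∃ᶠ n : ℕ in atTop, (s f univ ε n : ℝ) ≤
          η * n * Real.exp ((Dynamics.coverEntropy f univ).toReal * n),
      -- (6) full entropy, and no two disjoint closed invariant sets of full entropy
      (∀ U : Set M, IsOpen U → U.Nonempty → FullEntropy f.toHomeomorph U) ∧
        ¬ ∃ K L : Set M, IsClosed K ∧ IsClosed L ∧ f '' K = K ∧ f '' L = L ∧ Disjoint K L ∧
          Dynamics.coverEntropy f K = Dynamics.coverEntropy f univ ∧
          Dynamics.coverEntropy f L = Dynamics.coverEntropy f univ] :=
  Q70.AnG.man_tfae f Es Eu hf

end Pool.Agent.Results.MP_610fe3_an.GrowthOfOpenSets
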