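import Pool.Agent.Q192.PK.ManE

/-!
# MP_610fe3_an: transitivity of Anosov diffeomorphisms, conditions at the periodic points
-/

set_option autoImplicit false

open scoped Manifold ContDiff Topology Bundle
open Set Filter Bundle

namespace Pool.Agent.Results.MP_610fe3_an.PeriodicExponents

open Pool.Agent.H721R2 Pool.Agent.H789R2.AN Pool.Agent.H779R2.An Pool.Agent.Q192.PI.B
  Pool.Agent.Q192.PK

/-- **Transitivity of Anosov diffeomorphisms from the distortion on one bundle or the eigenvalues at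
the periodic points.**

Let `f` be a `C¹` Anosov diffeomorphism of a closed connected manifold `M`, `TM = Es ⊕ Eu`. Suppose
one of the following.
* One of the two bundles, `V`, has rank at least two and `Dfⁿ` has subexponential distortion on it:
  for every `κ > 1` there is `C` with `‖Dfⁿ v‖ / ‖v‖ ≤ C κⁿ ‖Dfⁿ w‖ / ‖w‖` for all `n ≥ 0`, all
  points `x` and all `v, w ∈ V x`; or `f` is `C²` and at each periodic point `p = fᵏ p` all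
  eigenvalues of `D(fᵏ)` on `V p` have the same modulus, which may depend on `p` (`OneModulus`;
  Jordan blocks are allowed). Nothing is assumed on the other bundle.
* `f` is `C²` and at each periodic point `p = fᵏ p` the moduli of the eigenvalues of `D(fᵏ)` are in
  `[μ₁ᵏ, μ₂ᵏ]` on `Es p` and in `[l₁ᵏ, l₂ᵏ]` on `Eu p`, `log l₁ / log l₂ + log μ₂ / log μ₁ > 1`.
* `C⁻¹ μ₁ⁿ ≤ ‖Dfⁿ v‖ / ‖v‖ ≤ C μ₂ⁿ` on `Es`, `C⁻¹ l₁ⁿ ≤ ‖Dfⁿ v‖ / ‖v‖ ≤ C l₂ⁿ` on `Eu`, the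
  distortion of `Dfⁿ` on `Eu`, of rank `D ≥ 2`, is at most `C₁ κⁿ`, and
  `2 D log κ (log μ₂ - log μ₁) < (-log μ₂) log l₁`.

Then `f` is topologically transitive. -/
theorem result (E : Type*) [NormedAddCommGroup E] [NormedSpace ℝ E] [FiniteDimensional ℝ E]
    (M : Type*) [TopologicalSpace M] [T2Space M] [CompactSpace M] [ConnectedSpace M]
    [ChartedSpace E M] [IsManifold 𝓘(ℝ, E) ∞ M] (f : Diffeomorph 𝓘(ℝ, E) 𝓘(ℝ, E) M M 1)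
    (Es Eu : ∀ x : M, Submodule ℝ (TangentSpace 𝓘(ℝ, E) x)) (hA : IsAnosov f Es Eu)
    (N : TangentBundle 𝓘(ℝ, E) M → ℝ) (hN : IsTangentNorm N)
    (h : ((∀ x, 2 ≤ Module.finrank ℝ (Eu x)) ∧
        ((∀ κ : ℝ, 1 < κ → ∃ C : ℝ, DistortionOn f N Eu C κ) ∨
          (ContMDiff 𝓘(ℝ, E) 𝓘(ℝ, E) 2 f ∧ ContMDiff 𝓘(ℝ, E) 𝓘(ℝ, E) 2 f.symm ∧
            OneModulus f Eu))) ∨
      ((∀ x, 2 ≤ Module.finrank ℝ (Es x)) ∧
        ((∀ κ : ℝ, 1 < κ → ∃ C : ℝ, DistortionOn f N Es C κ) ∨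
          (ContMDiff 𝓘(ℝ, E) 𝓘(ℝ, E) 2 f ∧ ContMDiff 𝓘(ℝ, E) 𝓘(ℝ, E) 2 f.symm ∧
            OneModulus f Es))) ∨
      (ContMDiff 𝓘(ℝ, E) 𝓘(ℝ, E) 2 f ∧ ContMDiff 𝓘(ℝ, E) 𝓘(ℝ, E) 2 f.symm ∧
        ∃ μ₁ μ₂ l₁ l₂ : ℝ, 0 < μ₁ ∧ μ₁ ≤ μ₂ ∧ μ₂ < 1 ∧ 1 < l₁ ∧ l₁ ≤ l₂ ∧
          PeriodicRates f Es μ₁ μ₂ ∧ PeriodicRates f Eu l₁ l₂ ∧
          1 < Real.log l₁ / Real.log l₂ + Real.log μ₂ / Real.log μ₁) ∨
      ∃ (C μ₁ μ₂ l₁ l₂ C₁ κ : ℝ) (D : ℕ), 0 < C ∧ 0 < μ₁ ∧ μ₁ ≤ μ₂ ∧ μ₂ < 1 ∧ 1 < l₁ ∧ l₁ ≤ l₂ ∧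
        RatesOn f N Es C μ₁ μ₂ ∧ RatesOn f N Eu C l₁ l₂ ∧ 2 ≤ D ∧
        (∀ x, Module.finrank ℝ (Eu x) = D) ∧ 1 ≤ κ ∧ DistortionOn f N Eu C₁ κ ∧
        2 * D * Real.log κ * (Real.log μ₂ - Real.log μ₁) < -Real.log μ₂ * Real.log l₁) :
    TopTransitive f := by
  rcases h with h | h | h | h
  · exact (man_all f Es Eu hA N hN (Or.inl h)).1
  · exact (man_all f Es Eu hA N hN (Or.inr (Or.inl h))).1
  · exact (man_all f Es Eu hA N hN (Or.inr (Or.inr (Or.inl h)))).1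
  · exact (man_all f Es Eu hA N hN (Or.inr (Or.inr (Or.inr (Or.inr h))))).1

end Pool.Agent.Results.MP_610fe3_an.PeriodicExponents
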