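import Pool.Agent.Q63.Ano.Main

set_option autoImplicit false

open scoped Manifold ContDiff Topology ENNReal
open Set Filter MeasureTheory

namespace Pool.Agent.Results.MP_610fe3_an.PeriodicJacobians

open Pool.Agent.H721R2 Pool.Agent.H789R2.AN

/-- `|det D(f^p)(z)|`.  It is used at the fixed points `z` of `f^p` only, where the derivative of
`f^p` is an endomorphism of the tangent space of `M` at `z`. -/
noncomputable def absDet {E : Type*} [NormedAddCommGroup E] [NormedSpace ℝ E]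
    {M : Type*} [TopologicalSpace M] [ChartedSpace E M] (f : M → M) (p : ℕ) (z : M) : ℝ :=
  |(show E →L[ℝ] E from mfderiv 𝓘(ℝ, E) 𝓘(ℝ, E) (f^[p]) z).det|

/-- `φ` is Hölder continuous: there are a `C¹` map `u` from `M` to some `ℝᵏ` (for instance an
embedding) and `C`, `α > 0` with `|φ x - φ y| ≤ C ‖u x - u y‖ ^ α`. -/
def HolderOn (E : Type*) [NormedAddCommGroup E] [NormedSpace ℝ E]
    {M : Type*} [TopologicalSpace M] [ChartedSpace E M] (φ : M → ℝ) : Prop :=
  ∃ (k : ℕ) (u : M → EuclideanSpace ℝ (Fin k)) (C α : ℝ), ContMDiff 𝓘(ℝ, E) (𝓡 k) 1 u ∧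
    0 < α ∧ ∀ x y, |φ x - φ y| ≤ C * ‖u x - u y‖ ^ α

/-- The open set `U`, neither empty nor everything, is a trapping region of `f`: the closure of
`U` is mapped into `U`. -/
structure Trapping {M : Type*} [TopologicalSpace M] (f : M → M) (U : Set M) : Prop where
  isOpen : IsOpen U
  nonempty : U.Nonempty
  ne_univ : U ≠ univ
  image_closure : f '' closure U ⊆ U

/-- **Anosov diffeomorphisms which do not contract volume at the periodic points are transitive.**

Let `f` be an Anosov diffeomorphism of a closed connected manifold `M`.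

(1) Let `f` be of class `C²`.  If `|det D(f^p)(z)| ≥ 1` for all `p ≥ 1` and all fixed points `z` of
`f^p`, then `f` is topologically transitive; the same holds if all these determinants are `≤ 1`.
In general every trapping region `U` of `f` (open, `f (closure U) ⊆ U`, `∅ ≠ U ≠ M`) contains a
periodic point with `|det D(f^p)(z)| < 1`, and there is a periodic point outside the closure of `U`
with `|det D(f^p)(z)| > 1`.

(2) Let `f` be of class `C¹` and let `μ` be any finite Borel measure on `M`, positive on nonempty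
open sets, which `f` contracts at most by a Hölder continuous cocycle, up to a constant factor:
`∫_U exp (φ(x) + φ(f x) + ⋯ + φ(f^(n-1) x)) dμ(x) ≤ C μ(f^n U)` for all open `U` and all `n`
(for instance: `φ` is the logarithm of the Jacobian of `f` with respect to `μ`).  If
`φ(z) + ⋯ + φ(f^(p-1) z) ≥ 0` for all `p ≥ 1` and all `z` with `f^p z = z`, then `f` is
topologically transitive; in general every trapping region contains a periodic point for which this
sum is negative. -/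
theorem result {E : Type*} [NormedAddCommGroup E] [NormedSpace ℝ E] [FiniteDimensional ℝ E]
    {M : Type*} [TopologicalSpace M] [T2Space M] [CompactSpace M] [ConnectedSpace M]
    [ChartedSpace E M] [IsManifold 𝓘(ℝ, E) ∞ M] [MeasurableSpace M] [BorelSpace M]
    (f : Diffeomorph 𝓘(ℝ, E) 𝓘(ℝ, E) M M 1)
    (Es Eu : ∀ x : M, Submodule ℝ (TangentSpace 𝓘(ℝ, E) x)) (hA : IsAnosov f Es Eu) :
    (ContMDiff 𝓘(ℝ, E) 𝓘(ℝ, E) 2 f → ContMDiff 𝓘(ℝ, E) 𝓘(ℝ, E) 2 f.symm →
      (((∀ p : ℕ, 1 ≤ p → ∀ z, f^[p] z = z → 1 ≤ absDet (E := E) f p z) ∨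
        (∀ p : ℕ, 1 ≤ p → ∀ z, f^[p] z = z → absDet (E := E) f p z ≤ 1)) → TopTransitive f) ∧
      ∀ U : Set M, Trapping f U →
        (∃ p : ℕ, 1 ≤ p ∧ ∃ z ∈ U, f^[p] z = z ∧ absDet (E := E) f p z < 1) ∧
        ∃ p : ℕ, 1 ≤ p ∧ ∃ z, z ∉ closure U ∧ f^[p] z = z ∧ 1 < absDet (E := E) f p z) ∧
    ∀ (μ : Measure M) [IsFiniteMeasure μ], (∀ U : Set M, IsOpen U → U.Nonempty → μ U ≠ 0) →
      ∀ φ : M → ℝ, HolderOn E φ → ∀ C : ℝ≥0∞, C ≠ ⊤ →
      (∀ U : Set M, IsOpen U → ∀ n : ℕ,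
        ∫⁻ x in U, ENNReal.ofReal (Real.exp (∑ i ∈ Finset.range n, φ (f^[i] x))) ∂μ ≤
          C * μ (f^[n] '' U)) →
      ((∀ p : ℕ, 1 ≤ p → ∀ z, f^[p] z = z → 0 ≤ ∑ i ∈ Finset.range p, φ (f^[i] z)) →
        TopTransitive f) ∧
      ∀ U : Set M, Trapping f U → ∃ p : ℕ, 1 ≤ p ∧ ∃ z ∈ U, f^[p] z = z ∧
        ∑ i ∈ Finset.range p, φ (f^[i] z) < 0 := by
  refine ⟨fun hf2 hf2' => ?_, fun μ _ hμ φ hφ C hC hqi => ?_⟩
  · obtain ⟨h1, h2⟩ := Q63.Ano.vol_main f Es Eu hA hf2
    obtain ⟨h3, h4⟩ := Q63.Ano.vol_main_symm f Es Eu hA hf2'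
    exact ⟨fun h => h.elim h1 h3, fun U hU =>
      ⟨h2 U hU.isOpen hU.nonempty hU.ne_univ hU.image_closure,
        h4 U hU.isOpen hU.nonempty hU.ne_univ hU.image_closure⟩⟩
  · obtain ⟨h1, h2⟩ := Q63.Ano.general f Es Eu hA μ hμ φ hφ C hC hqi
    exact ⟨h1, fun U hU => h2 U hU.isOpen hU.nonempty hU.ne_univ hU.image_closure⟩

end Pool.Agent.Results.MP_610fe3_an.PeriodicJacobians
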